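import Pool.Agent.X36.Frob

/-!
# Groups satisfying `(*)` have all elements of prime power order

For a finite group `G` let `N_d(G)` be the number of elements of order exactly `d`.  If for every
divisor `d > 1` of `|G|` and every subgroup `H` of `G` with `gcd (|H|, d) = 1` the order `|H|`
divides `N_d(G)`, then every element of `G` has prime power order.

Proof.  Let `q` be a prime and `q^e` the `q`-part of `|G|`.  The set `T` of the elements of prime
power order is the union of the set of elements of `q`-power order, whose number is divisible by
`q^e` by a theorem of Frobenius, and of the sets of elements of order `d`, `d > 1` a power of a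
prime other than `q`, whose numbers `N_d(G)` are divisible by `q^e` by the hypothesis for a Sylow
`q`-subgroup `H`.  So `q^e` divides `|T|` for all `q`, hence `|G|` divides `|T|`, and `T = G`.
-/

set_option autoImplicit false

universe u

namespace Pool.Agent.Results.MP_9320d9_al.PrimePowerOrders

/-- `N d G` is the number of elements of `G` of order exactly `d`. -/
noncomputable def N (d : ℕ) (G : Type u) [Group G] : ℕ := Nat.card {g : G // orderOf g = d}

/-- The condition `(*)`: for every divisor `d > 1` of `|G|` and every subgroup `H` of `G` with
`gcd (|H|, d) = 1`, the order `|H|` divides `N d G`. -/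
def Star (G : Type u) [Group G] : Prop :=
  ∀ d : ℕ, 1 < d → d ∣ Nat.card G →
    ∀ H : Subgroup G, Nat.gcd (Nat.card H) d = 1 → Nat.card H ∣ N d G

/-- If a finite group `G` satisfies `(*)`, then every element of `G` has prime power order. -/
theorem result (G : Type u) [Group G] [Finite G] (h : Star G) (g : G) :
    ∃ p k : ℕ, p.Prime ∧ orderOf g = p ^ k :=
  Pool.Agent.X36.Frob.main G h g

end Pool.Agent.Results.MP_9320d9_al.PrimePowerOrders
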